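import Mathlib

open Finset

namespace Pool.Agent.X331.AGL

variable {F : Type*} [Field F]

/-- `x ↦ a x + b` maps `Y` into `Y` -/
def Stab (Y : Finset F) (a b : F) : Prop := ∀ y ∈ Y, a * y + b ∈ Y

lemma sum_stab [DecidableEq F] {M : Type*} [AddCommMonoid M] {Y : Finset F} {a b : F} (ha : a ≠ 0)
    (h : Stab Y a b) (f : F → M) : ∑ y ∈ Y, f (a * y + b) = ∑ y ∈ Y, f y := by
  have hinj : Set.InjOn (fun y => a * y + b) (Y : Set F) := by
    intro x _ y _ hxy
    have : a * x = a * y := add_right_cancel hxy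
    exact mul_left_cancel₀ ha this
  have himg : Y.image (fun y => a * y + b) = Y := by
    apply Finset.eq_of_subset_of_card_le
    · intro z hz
      obtain ⟨y, hy, rfl⟩ := Finset.mem_image.1 hz
      exact h y hy
    · rw [Finset.card_image_of_injOn hinj]
  conv_rhs => rw [← himg]
  rw [Finset.sum_image hinj]

lemma stab_bij [DecidableEq F] {Y : Finset F} {a b : F} (ha : a ≠ 0)
    (h : Stab Y a b) {x : F} (hx : a * x + b ∈ Y) : x ∈ Y := by
  have hinj : Function.Injective (fun y => a * y + b) := by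
    intro x y hxy
    have : a * x = a * y := add_right_cancel hxy
    exact mul_left_cancel₀ ha this
  have himg : Y.image (fun y => a * y + b) = Y := by
    apply Finset.eq_of_subset_of_card_le
    · intro z hz
      obtain ⟨y, hy, rfl⟩ := Finset.mem_image.1 hz
      exact h y hy
    · rw [Finset.card_image_of_injective _ hinj]
  rw [← himg] at hx
  obtain ⟨y, hy, hyx⟩ := Finset.mem_image.1 hx
  have := hinj hyx
  rwa [← this]

lemma Stab.inv [DecidableEq F] {Y : Finset F} {a b : F} (ha : a ≠ 0) (h : Stab Y a b) :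
    Stab Y a⁻¹ (-(a⁻¹ * b)) := by
  intro y hy
  apply stab_bij ha h
  have : a * (a⁻¹ * y + -(a⁻¹ * b)) + b = y := by
    field_simp
    ring
  rwa [this]

lemma Stab.comp {Y : Finset F} {a b c d : F} (h : Stab Y a b) (h' : Stab Y c d) :
    Stab Y (a * c) (a * d + b) := by
  intro y hy
  have := h _ (h' y hy)
  have e : a * (c * y + d) + b = a * c * y + (a * d + b) := by ring
  rwa [e] at this

section char2
variable [CharP F 2]

lemma even_card_of_trans [DecidableEq F] {Y : Finset F} {t : F} (ht : t ≠ 0) (h : Stab Y 1 t) :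
    Even Y.card := by
  have : ∑ y ∈ Y, (1 : ZMod 2) = 0 := by
    refine Finset.sum_involution (fun y _ => y + t) ?_ ?_ ?_ ?_
    · intro a _; decide
    · intro a _ _ hh
      exact ht (by simpa using hh)
    · intro a ha
      have := h a ha
      rwa [one_mul] at this
    · intro a ha
      rw [add_assoc, CharTwo.add_self_eq_zero, add_zero]
  rw [Finset.sum_const, nsmul_eq_mul, mul_one] at this
  exact (ZMod.natCast_eq_zero_iff_even).1 this

lemma geom_id (x t : F) (e : ℕ) (he : 1 ≤ e) :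
    (x + t) ^ (2 ^ e - 1) = ∑ i ∈ range (2 ^ e), x ^ i * t ^ (2 ^ e - 1 - i) := by
  have hpos : 1 ≤ 2 ^ e := Nat.one_le_two_pow
  have h2 : 2 ≤ 2 ^ e := by
    calc 2 = 2 ^ 1 := rfl
      _ ≤ 2 ^ e := Nat.pow_le_pow_right (by norm_num) he
  by_cases hxt : x + t = 0
  · have hx : x = t := by
      have := CharTwo.add_eq_zero.1 hxt
      exact this
    subst hx
    rw [CharTwo.add_self_eq_zero, zero_pow (by omega)]
    symm
    have : ∀ i ∈ range (2 ^ e), x ^ i * x ^ (2 ^ e - 1 - i) = x ^ (2 ^ e - 1) := by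
      intro i hi
      rw [← pow_add]
      congr 1
      have := mem_range.1 hi
      omega
    rw [Finset.sum_congr rfl this, Finset.sum_const, card_range, nsmul_eq_mul]
    push_cast
    rw [CharTwo.two_eq_zero, zero_pow (by omega), zero_mul]
  · have h1 := geom_sum₂_mul x t (2 ^ e)
    apply mul_right_cancel₀ hxt
    rw [← pow_succ, Nat.sub_add_cancel hpos, add_pow_char_pow]
    have h3 : x + t = x - t := (CharTwo.sub_eq_add x t).symm
    rw [h3, h1, CharTwo.sub_eq_add]

/-- power sums -/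
def P (Y : Finset F) (i : ℕ) : F := ∑ y ∈ Y, y ^ i

lemma P_two (Y : Finset F) (i : ℕ) : P Y (2 * i) = P Y i ^ 2 := by
  unfold P
  rw [CharTwo.sum_sq]
  apply Finset.sum_congr rfl
  intro y _
  rw [mul_comm, pow_mul]

lemma trans_id [DecidableEq F] {Y : Finset F} {t : F} (h : Stab Y 1 t) (n e : ℕ) (he : 1 ≤ e)
    (hn : n + 1 = 2 ^ e) : ∑ i ∈ range n, P Y i * t ^ (n - i) = 0 := by
  have h1 := sum_stab one_ne_zero h (fun y => y ^ n)
  have h2 : ∑ y ∈ Y, (1 * y + t) ^ n = ∑ i ∈ range (n + 1), P Y i * t ^ (n - i) := by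
    have : ∀ y ∈ Y, (1 * y + t) ^ n = ∑ i ∈ range (n + 1), y ^ i * t ^ (n - i) := by
      intro y _
      rw [one_mul]
      have := geom_id y t e he
      rw [← hn] at this
      simpa using this
    rw [Finset.sum_congr rfl this, Finset.sum_comm]
    apply Finset.sum_congr rfl
    intro i _
    rw [P, Finset.sum_mul]
  rw [h2, Finset.sum_range_succ, Nat.sub_self, pow_zero, mul_one] at h1
  have h3 : P Y n = ∑ y ∈ Y, y ^ n := rfl
  rw [h3] at h1
  simpa using h1

lemma P_zero_of_even {Y : Finset F} (h : Even Y.card) : P Y 0 = 0 := by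
  unfold P
  simp only [pow_zero, Finset.sum_const, nsmul_eq_mul, mul_one]
  obtain ⟨k, hk⟩ := h
  rw [hk]
  push_cast
  exact CharTwo.add_self_eq_zero _

lemma P_stab [DecidableEq F] {Y : Finset F} {a : F} (ha : a ≠ 0) (h : Stab Y a 0) (i : ℕ) :
    a ^ i * P Y i = P Y i := by
  have := sum_stab ha h (fun y => y ^ i)
  unfold P
  rw [Finset.mul_sum, ← this]
  apply Finset.sum_congr rfl
  intro y _
  rw [add_zero, mul_pow]

lemma P_eq_zero [DecidableEq F] {Y : Finset F} {ζ : F} {d : ℕ} (hζ : IsPrimitiveRoot ζ d)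
    (hd : 0 < d) (h : Stab Y ζ 0) {i : ℕ} (hi : ¬ d ∣ i) : P Y i = 0 := by
  have h0 : ζ ≠ 0 := hζ.ne_zero (by omega)
  have h1 := P_stab h0 h i
  have h2 : ζ ^ i ≠ 1 := fun hh => hi ((hζ.pow_eq_one_iff_dvd i).1 hh)
  by_contra h3
  exact h2 (mul_right_cancel₀ h3 (by rw [h1, one_mul]))

/-- non-Mersenne -/
lemma trans_nonM [DecidableEq F] {Y : Finset F} {ζ : F} {d : ℕ} (hζ : IsPrimitiveRoot ζ d)
    (hd : 0 < d) (h : Stab Y ζ 0) (hev : Even Y.card) {t : F} (ht : Stab Y 1 t) {n e : ℕ}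
    (he : 1 ≤ e) (hn : n + 1 = 2 ^ e) (h1 : d < n) (h2 : n ≤ 2 * d) (hP : P Y d ≠ 0) : t = 0 := by
  have h3 := trans_id ht n e he hn
  rw [Finset.sum_eq_single d] at h3
  · have := (mul_eq_zero.1 h3).resolve_left hP
    exact pow_eq_zero_iff (by omega) |>.1 this
  · intro i hi hid
    have hi' := mem_range.1 hi
    by_cases hi0 : i = 0
    · rw [hi0, P_zero_of_even hev, zero_mul]
    · rw [P_eq_zero hζ hd h, zero_mul]
      rintro ⟨k, hk⟩
      rcases k with _ | _ | k
      · omega
      · omega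
      · have : d * (k + 1 + 1) = d * k + 2 * d := by ring
        omega
  · intro hh
    exact absurd (mem_range.2 h1) hh

/-- Mersenne -/
lemma trans_M [DecidableEq F] {Y : Finset F} {ζ : F} {d : ℕ} (hζ : IsPrimitiveRoot ζ d)
    (hd : 0 < d) (h : Stab Y ζ 0) (hev : Even Y.card) {t : F} (ht : Stab Y 1 t) {e : ℕ}
    (hn : d + 1 = 2 ^ e) (hP : P Y d ≠ 0) (ht0 : t ≠ 0) : t ^ d = P Y d := by
  have hn2 : (2 * d + 1) + 1 = 2 ^ (e + 1) := by rw [pow_succ]; omega
  have h3 := trans_id ht (2 * d + 1) (e + 1) (by omega) hn2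
  rw [Finset.sum_range_succ] at h3
  have h4 : ∑ i ∈ range (2 * d), P Y i * t ^ (2 * d + 1 - i) = P Y d * t ^ (d + 1) := by
    rw [Finset.sum_eq_single d]
    · congr 2; omega
    · intro i hi hid
      have hi' := mem_range.1 hi
      by_cases hi0 : i = 0
      · rw [hi0, P_zero_of_even hev, zero_mul]
      · rw [P_eq_zero hζ hd h, zero_mul]
        rintro ⟨k, hk⟩
        rcases k with _ | _ | k
        · omega
        · omega
        · have : d * (k + 1 + 1) = d * k + 2 * d := by ring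
          omega
    · intro hh
      exact absurd (mem_range.2 (by omega)) hh
  rw [h4, P_two] at h3
  have h5 : 2 * d + 1 - 2 * d = 1 := by omega
  rw [h5, pow_one] at h3
  have h6 : (P Y d * t) * (t ^ d + P Y d) = 0 := by
    rw [← h3]; ring
  have h7 := (mul_eq_zero.1 h6).resolve_left (mul_ne_zero hP ht0)
  exact CharTwo.add_eq_zero.1 h7

/-- main lemma, d > 1 -/
lemma stab_eq [DecidableEq F] {Y : Finset F} {ζ : F} {d : ℕ} (hζ : IsPrimitiveRoot ζ d)
    (hd : 1 < d) (h : Stab Y ζ 0) (hP : P Y d ≠ 0) (hT : ∀ t, Stab Y 1 t → t = 0) (a b : F)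
    (ha : a ≠ 0) (hs : Stab Y a b) : a ^ d = 1 ∧ b = 0 := by
  have h0 : ζ ≠ 0 := hζ.ne_zero (by omega)
  have h1 : ζ ≠ 1 := hζ.ne_one hd
  have hb : b = 0 := by
    have hc := (hs.comp h).comp ((hs.inv ha).comp (h.inv h0))
    have hc' : Stab Y 1 (b * (1 - ζ)) := by
      convert hc using 1
      · field_simp
      · field_simp
        ring
    have := hT _ hc'
    rcases mul_eq_zero.1 this with h2 | h2
    · exact h2
    · exact absurd (sub_eq_zero.1 h2).symm h1
  subst hb
  refine ⟨?_, rfl⟩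
  have := P_stab ha hs d
  exact mul_right_cancel₀ hP (by rw [this, one_mul])

end char2

end Pool.Agent.X331.AGL
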