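import Mathlib
import Pool.Agent.X331.AGL.Basic

open Finset

namespace Pool.Agent.X331.AGL

variable {F : Type*} [Field F] [Fintype F] [DecidableEq F]

/-- preimage of `Z` under the `d`-th power -/
def YZ (d : ℕ) (Z : Finset F) : Finset F := univ.filter (fun x => x ^ d ∈ Z)

lemma mem_YZ {d : ℕ} {Z : Finset F} {x : F} : x ∈ YZ d Z ↔ x ^ d ∈ Z := by simp [YZ]

lemma card_fiber {d : ℕ} (hd : 0 < d) {ζ : F} (hζ : IsPrimitiveRoot ζ d) {w : F} (hw : w ≠ 0) :
    (univ.filter (fun x : F => x ^ d = w ^ d)).card = d := by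
  have h1 : univ.filter (fun x : F => x ^ d = w ^ d) =
      (Polynomial.nthRootsFinset d (1 : F)).image (fun y => y * w) := by
    ext x
    simp only [mem_filter, mem_univ, true_and, mem_image]
    constructor
    · intro hx
      refine ⟨x / w, ?_, by field_simp⟩
      rw [Polynomial.mem_nthRootsFinset hd, div_pow, hx, div_self (pow_ne_zero _ hw)]
    · rintro ⟨y, hy, rfl⟩
      rw [Polynomial.mem_nthRootsFinset hd] at hy
      rw [mul_pow, hy, one_mul]
  rw [h1, Finset.card_image_of_injective _ (mul_left_injective₀ hw), hζ.card_nthRootsFinset]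

lemma card_YZ {d : ℕ} (hd : 0 < d) {ζ : F} (hζ : IsPrimitiveRoot ζ d) {Z : Finset F}
    (hZ : ∀ z ∈ Z, ∃ w : F, w ≠ 0 ∧ w ^ d = z) : (YZ d Z).card = d * Z.card := by
  have h1 : (YZ d Z).card = ∑ z ∈ Z, ((YZ d Z).filter (fun x => x ^ d = z)).card := by
    apply Finset.card_eq_sum_card_fiberwise
    intro x hx
    exact mem_YZ.1 hx
  rw [h1]
  have h2 : ∀ z ∈ Z, ((YZ d Z).filter (fun x => x ^ d = z)).card = d := by
    intro z hz
    obtain ⟨w, hw, hwz⟩ := hZ z hz
    have : (YZ d Z).filter (fun x => x ^ d = z) = univ.filter (fun x : F => x ^ d = w ^ d) := by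
      ext x
      simp only [mem_filter, mem_univ, true_and, mem_YZ, hwz]
      constructor
      · rintro ⟨_, h⟩; exact h
      · intro h; exact ⟨by rwa [h], h⟩
    rw [this, card_fiber hd hζ hw]
  rw [Finset.sum_congr rfl h2, Finset.sum_const, smul_eq_mul, mul_comm]

lemma sum_YZ {d : ℕ} (hd : 0 < d) {ζ : F} (hζ : IsPrimitiveRoot ζ d) {Z : Finset F}
    (hZ : ∀ z ∈ Z, ∃ w : F, w ≠ 0 ∧ w ^ d = z) : P (YZ d Z) d = (d : F) * ∑ z ∈ Z, z := by
  have h1 : ∑ x ∈ YZ d Z, x ^ d = ∑ z ∈ Z, ∑ x ∈ (YZ d Z).filter (fun x => x ^ d = z), x ^ d := by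
    symm
    apply Finset.sum_fiberwise_of_maps_to
    intro x hx
    exact mem_YZ.1 hx
  unfold P
  rw [h1, Finset.mul_sum]
  apply Finset.sum_congr rfl
  intro z hz
  obtain ⟨w, hw, hwz⟩ := hZ z hz
  have : (YZ d Z).filter (fun x => x ^ d = z) = univ.filter (fun x : F => x ^ d = w ^ d) := by
    ext x
    simp only [mem_filter, mem_univ, true_and, mem_YZ, hwz]
    constructor
    · rintro ⟨_, h⟩; exact h
    · intro h; exact ⟨by rwa [h], h⟩
  have h2 : ∀ x ∈ (YZ d Z).filter (fun x => x ^ d = z), x ^ d = z := by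
    intro x hx
    exact (mem_filter.1 hx).2
  rw [Finset.sum_congr rfl h2, Finset.sum_const, this, card_fiber hd hζ hw, nsmul_eq_mul]

lemma stab_YZ {d : ℕ} {ζ : F} (hζ : ζ ^ d = 1) (Z : Finset F) : Stab (YZ d Z) ζ 0 := by
  intro y hy
  rw [mem_YZ] at *
  rwa [add_zero, mul_pow, hζ, one_mul]

/-- exchange: a subset of given size with non-zero sum -/
lemma exists_sum_ne {U : Finset F} {m : ℕ} (h1 : 1 ≤ m) (h2 : m < U.card) :
    ∃ Z ⊆ U, Z.card = m ∧ ∑ z ∈ Z, z ≠ 0 := by
  obtain ⟨Z, hZU, hZ⟩ := Finset.exists_subset_card_eq h2.le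
  by_cases hs : ∑ z ∈ Z, z = 0
  · obtain ⟨a, ha⟩ : Z.Nonempty := by rw [← Finset.card_pos]; omega
    obtain ⟨b, hb, hbZ⟩ : ∃ b ∈ U, b ∉ Z := by
      by_contra hcon
      push Not at hcon
      have := Finset.card_le_card (show U ⊆ Z from hcon)
      omega
    have hb' : b ∉ Z.erase a := fun h => hbZ (Finset.mem_of_mem_erase h)
    refine ⟨insert b (Z.erase a), ?_, ?_, ?_⟩
    · intro x hx
      rcases Finset.mem_insert.1 hx with rfl | hx
      · exact hb
      · exact hZU (Finset.mem_of_mem_erase hx)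
    · rw [Finset.card_insert_of_notMem hb', Finset.card_erase_of_mem ha]
      omega
    · rw [Finset.sum_insert hb']
      have h3 := Finset.add_sum_erase Z (fun z => z) ha
      rw [hs] at h3
      intro h4
      have h5 : b = a := by
        have : a + ∑ x ∈ Z.erase a, x = b + ∑ x ∈ Z.erase a, x := by rw [h3, h4]
        exact (add_right_cancel this).symm
      rw [h5] at hbZ
      exact hbZ ha
  · exact ⟨Z, hZU, hZ, hs⟩

/-- case C1 -/
lemma exists_C1 [CharP F 2] {U : Finset F} {m : ℕ} (h1 : 2 ≤ m) (h2 : 2 * m ≤ U.card) :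
    ∃ Z ⊆ U, Z.card = m ∧ ∑ z ∈ Z, z ≠ 0 ∧ ∑ z ∈ Z, z ∉ Z := by
  obtain ⟨Z, hZU, hZ, hs⟩ := exists_sum_ne (U := U) (m := m - 1) (by omega) (by omega)
  set s := ∑ z ∈ Z, z with hsdef
  have hcard : (Z ∪ Z.image (fun z => z + s) ∪ {s}).card < U.card := by
    calc (Z ∪ Z.image (fun z => z + s) ∪ {s}).card ≤ (Z ∪ Z.image (fun z => z + s)).card + ({s} : Finset F).card :=
          Finset.card_union_le _ _
      _ ≤ (Z.card + (Z.image (fun z => z + s)).card) + 1 := by
          have := Finset.card_union_le Z (Z.image (fun z => z + s))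
          rw [Finset.card_singleton]
          omega
      _ ≤ Z.card + Z.card + 1 := by
          have := Finset.card_image_le (s := Z) (f := fun z => z + s)
          omega
      _ < U.card := by omega
  obtain ⟨z, hz, hzn⟩ : ∃ b ∈ U, b ∉ Z ∪ Z.image (fun z => z + s) ∪ {s} := by
    by_contra hcon
    push Not at hcon
    have := Finset.card_le_card (show U ⊆ (Z ∪ Z.image (fun z => z + s) ∪ {s}) from hcon)
    omega
  simp only [mem_union, mem_image, mem_singleton, not_or, not_exists, not_and] at hzn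
  obtain ⟨⟨hz1, hz2⟩, hz3⟩ := hzn
  refine ⟨insert z Z, ?_, ?_, ?_, ?_⟩
  · intro x hx
    rcases Finset.mem_insert.1 hx with rfl | hx
    · exact hz
    · exact hZU hx
  · rw [Finset.card_insert_of_notMem hz1]; omega
  · rw [Finset.sum_insert hz1, ← hsdef]
    intro h
    exact hz3 (CharTwo.add_eq_zero.1 h)
  · rw [Finset.sum_insert hz1, ← hsdef]
    intro h
    rcases Finset.mem_insert.1 h with h | h
    · exact hs (by simpa using h)
    · refine hz2 _ h ?_
      rw [add_assoc, CharTwo.add_self_eq_zero, add_zero]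

/-- case C2 -/
lemma exists_C2 [CharP F 2] {U : Finset F} (hU : (0 : F) ∉ U) (hodd : Odd U.card) {m : ℕ}
    (hm : Even m) (h1 : 4 ≤ m) (h2 : 2 * m ≤ U.card) :
    ∃ Z ⊆ U, Z.card = m ∧ ∑ z ∈ Z, z ≠ 0 ∧ (∑ z ∈ Z, z ∈ U → ∑ z ∈ Z, z ∈ Z) := by
  by_contra hcon
  push Not at hcon
  -- key: for every (m-1)-subset Z, z ∈ U \ Z
  have key : ∀ Z ⊆ U, Z.card = m - 1 → ∀ z ∈ U, z ∉ Z → z + ∑ x ∈ Z, x ≠ 0 →
      z + ∑ x ∈ Z, x ∈ U ∧ z + ∑ x ∈ Z, x ∉ Z ∧ z + ∑ x ∈ Z, x ≠ z := by
    intro Z hZU hZ z hz hzZ hne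
    have := hcon (insert z Z) (Finset.insert_subset hz hZU)
      (by rw [Finset.card_insert_of_notMem hzZ]; omega)
      (by rw [Finset.sum_insert hzZ]; exact hne)
    rw [Finset.sum_insert hzZ] at this
    refine ⟨this.1, fun h => this.2 (Finset.mem_insert_of_mem h), fun h => this.2 ?_⟩
    rw [h]
    exact Finset.mem_insert_self _ _
  have hout : ∀ Z ⊆ U, Z.card = m - 1 → ∃ z ∈ U, z ∉ Z := by
    intro Z hZU hZ
    by_contra hc
    push Not at hc
    have := Finset.card_le_card (show U ⊆ Z from hc)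
    omega
  -- Claim 1
  have c1 : ∀ Z ⊆ U, Z.card = m - 1 → ∑ x ∈ Z, x ≠ 0 := by
    intro Z hZU hZ h0
    obtain ⟨z, hz, hzZ⟩ := hout Z hZU hZ
    have := key Z hZU hZ z hz hzZ
    rw [h0, add_zero] at this
    exact (this (fun h => hU (h ▸ hz))).2.2 rfl
  -- Claim 2
  have c2 : ∀ Z ⊆ U, Z.card = m - 1 → ∑ x ∈ Z, x ∉ U \ Z := by
    intro Z hZU hZ hmem
    have hs := c1 Z hZU hZ
    set s := ∑ x ∈ Z, x with hsdef
    have hcard : ((U \ Z).erase s).card = U.card - (m - 1) - 1 := by
      rw [Finset.card_erase_of_mem hmem, Finset.card_sdiff_of_subset hZU, hZ]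
    have hev : Even ((U \ Z).erase s).card := by
      apply even_card_of_trans hs
      intro z hz
      rw [one_mul]
      have hz1 := Finset.mem_erase.1 hz
      have hz2 := Finset.mem_sdiff.1 hz1.2
      have hne : z + s ≠ 0 := fun h => hz1.1 (CharTwo.add_eq_zero.1 h)
      obtain ⟨k1, k2, _⟩ := key Z hZU hZ z hz2.1 hz2.2 hne
      refine Finset.mem_erase.2 ⟨?_, Finset.mem_sdiff.2 ⟨k1, k2⟩⟩
      intro h
      have : z = 0 := by simpa using h
      exact hU (this ▸ hz2.1)
    rw [hcard] at hev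
    obtain ⟨a, ha⟩ := hodd
    obtain ⟨b, hb⟩ := hm
    obtain ⟨c, hc⟩ := hev
    omega
  have c3 : ∀ Z ⊆ U, Z.card = m - 1 → ∀ z ∈ U, z ∉ Z → z + ∑ x ∈ Z, x ∈ U ∧ z + ∑ x ∈ Z, x ∉ Z := by
    intro Z hZU hZ z hz hzZ
    have hne : z + ∑ x ∈ Z, x ≠ 0 := by
      intro h
      have h' := CharTwo.add_eq_zero.1 h
      apply c2 Z hZU hZ
      rw [← h']
      exact Finset.mem_sdiff.2 ⟨hz, hzZ⟩
    obtain ⟨k1, k2, _⟩ := key Z hZU hZ z hz hzZ hne
    exact ⟨k1, k2⟩
  -- Claim 3
  have c4 : ∀ a ∈ U, ∀ b ∈ U, ∀ x ∈ U, a ≠ b → a ≠ x → b ≠ x → x + a + b ∈ U := by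
    intro a ha b hb x hx hab hax hbx
    -- choose Z containing a, not b, x, with sum ≠ x + b
    obtain ⟨Z, hZU, hZ, haZ, hbZ, hxZ, hsum⟩ : ∃ Z ⊆ U, Z.card = m - 1 ∧ a ∈ Z ∧ b ∉ Z ∧ x ∉ Z ∧
        ∑ z ∈ Z, z ≠ x + b := by
      set V := ((U.erase a).erase b).erase x with hV
      have hVc : V.card = U.card - 3 := by
        rw [hV, Finset.card_erase_of_mem, Finset.card_erase_of_mem, Finset.card_erase_of_mem ha]
        · omega
        · exact Finset.mem_erase.2 ⟨hab.symm, hb⟩
        · exact Finset.mem_erase.2 ⟨hbx.symm, Finset.mem_erase.2 ⟨hax.symm, hx⟩⟩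
      -- subset Z0 of V of size m-2, with sum ≠ x + b + a
      obtain ⟨Z0, hZ0V, hZ0, hZ0s⟩ : ∃ Z0 ⊆ V, Z0.card = m - 2 ∧ ∑ z ∈ Z0, z ≠ x + b + a := by
        obtain ⟨Z0, hZ0V, hZ0⟩ := Finset.exists_subset_card_eq (show m - 2 ≤ V.card by omega)
        by_cases hs : ∑ z ∈ Z0, z = x + b + a
        · obtain ⟨c, hc⟩ : Z0.Nonempty := by rw [← Finset.card_pos]; omega
          obtain ⟨c', hc', hcZ⟩ : ∃ b ∈ V, b ∉ Z0 := by
            by_contra hcon
            push Not at hcon
            have := Finset.card_le_card (show V ⊆ Z0 from hcon)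
            omega
          have hb' : c' ∉ Z0.erase c := fun h => hcZ (Finset.mem_of_mem_erase h)
          refine ⟨insert c' (Z0.erase c), ?_, ?_, ?_⟩
          · intro x hx
            rcases Finset.mem_insert.1 hx with rfl | hx
            · exact hc'
            · exact hZ0V (Finset.mem_of_mem_erase hx)
          · rw [Finset.card_insert_of_notMem hb', Finset.card_erase_of_mem hc]
            omega
          · rw [Finset.sum_insert hb']
            have h3 := Finset.add_sum_erase Z0 (fun z => z) hc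
            rw [hs] at h3
            intro h4
            have h5 : c' = c := by
              have : c + ∑ x ∈ Z0.erase c, x = c' + ∑ x ∈ Z0.erase c, x := by rw [h3, h4]
              exact (add_right_cancel this).symm
            rw [h5] at hcZ
            exact hcZ hc
        · exact ⟨Z0, hZ0V, hZ0, hs⟩
      have haV : a ∉ Z0 := fun h => by
        have := hZ0V h
        simp [hV] at this
      have hbV : b ∉ Z0 := fun h => by
        have := hZ0V h
        simp [hV] at this
      have hxV : x ∉ Z0 := fun h => by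
        have := hZ0V h
        simp [hV] at this
      refine ⟨insert a Z0, ?_, ?_, Finset.mem_insert_self _ _, ?_, ?_, ?_⟩
      · intro y hy
        rcases Finset.mem_insert.1 hy with rfl | hy
        · exact ha
        · have := hZ0V hy
          simp only [hV, Finset.mem_erase] at this
          exact this.2.2.2
      · rw [Finset.card_insert_of_notMem haV]; omega
      · intro h
        rcases Finset.mem_insert.1 h with h | h
        · exact hab h.symm
        · exact hbV h
      · intro h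
        rcases Finset.mem_insert.1 h with h | h
        · exact hax h.symm
        · exact hxV h
      · rw [Finset.sum_insert haV]
        intro h
        apply hZ0s
        have : a + (a + ∑ z ∈ Z0, z) = a + (x + b) := by rw [h]
        rw [← add_assoc, CharTwo.add_self_eq_zero, zero_add] at this
        rw [this]; ring
    -- y := x + s ∈ U \ Z
    obtain ⟨hy1, hy2⟩ := c3 Z hZU hZ x hx hxZ
    set s := ∑ z ∈ Z, z with hsdef
    -- y ≠ b
    have hyb : x + s ≠ b := by
      intro h
      apply hsum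
      have : x + (x + s) = x + b := by rw [h]
      rwa [← add_assoc, CharTwo.add_self_eq_zero, zero_add] at this
    -- exchange
    have hbZ' : b ∉ Z.erase a := fun h => hbZ (Finset.mem_of_mem_erase h)
    set Z' := insert b (Z.erase a) with hZ'
    have hZ'U : Z' ⊆ U := by
      intro y hy
      rcases Finset.mem_insert.1 hy with rfl | hy
      · exact hb
      · exact hZU (Finset.mem_of_mem_erase hy)
    have hZ'c : Z'.card = m - 1 := by
      rw [hZ', Finset.card_insert_of_notMem hbZ', Finset.card_erase_of_mem haZ]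
      omega
    have hyZ' : x + s ∉ Z' := by
      intro h
      rcases Finset.mem_insert.1 h with h | h
      · exact hyb h
      · exact hy2 (Finset.mem_of_mem_erase h)
    have hs' : ∑ z ∈ Z', z = s + a + b := by
      rw [hZ', Finset.sum_insert hbZ']
      have h3 := Finset.add_sum_erase Z (fun z => z) haZ
      have h4 : ∑ z ∈ Z.erase a, z = a + s := by
        have : a + (a + ∑ z ∈ Z.erase a, z) = a + s := by rw [h3]
        rwa [← add_assoc, CharTwo.add_self_eq_zero, zero_add] at this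
      rw [h4]; ring
    have := (c3 Z' hZ'U hZ'c (x + s) hy1 hyZ').1
    rw [hs'] at this
    have e : x + s + (s + a + b) = x + a + b + (s + s) := by ring
    rwa [e, CharTwo.add_self_eq_zero, add_zero] at this
  -- final contradiction
  obtain ⟨u, hu, v, hv, huv⟩ : ∃ u ∈ U, ∃ v ∈ U, u ≠ v := by
    have : 1 < U.card := by omega
    exact Finset.one_lt_card.1 this
  have hev : Even U.card := by
    apply even_card_of_trans (t := u + v)
    · intro h; exact huv (CharTwo.add_eq_zero.1 h)
    · intro x hx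
      rw [one_mul]
      by_cases h1 : x = u
      · rw [h1, ← add_assoc, CharTwo.add_self_eq_zero, zero_add]; exact hv
      by_cases h2 : x = v
      · rw [h2, add_comm u v, ← add_assoc, CharTwo.add_self_eq_zero, zero_add]; exact hu
      rw [← add_assoc]
      exact c4 u hu v hv x hx huv (Ne.symm h1) (Ne.symm h2)
  exact (Nat.not_even_iff_odd.2 hodd) hev

end Pool.Agent.X331.AGL
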