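import Mathlib
import Pool.Agent.X331.AGL.Sets

open Finset

namespace Pool.Agent.X331.AGL

variable {F : Type*} [Field F] [Fintype F] [DecidableEq F]

lemma quad_card [CharP F 2] {s : F} (hs : s ≠ 0) (C : F) :
    (univ.filter (fun x : F => s * x ^ 2 + s ^ 2 * x + C = 0)).card ≤ 2 := by
  set R := univ.filter (fun x : F => s * x ^ 2 + s ^ 2 * x + C = 0) with hR
  rcases R.eq_empty_or_nonempty with h | ⟨x1, h1⟩
  · rw [h]; simp
  · have h1' : s * x1 ^ 2 + s ^ 2 * x1 + C = 0 := (mem_filter.1 h1).2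
    have : R ⊆ {x1, x1 + s} := by
      intro x hx
      have hx' : s * x ^ 2 + s ^ 2 * x + C = 0 := (mem_filter.1 hx).2
      have e : s * ((x - x1) * (x + x1 + s)) = 0 := by
        have : s * ((x - x1) * (x + x1 + s)) =
          (s * x ^ 2 + s ^ 2 * x + C) - (s * x1 ^ 2 + s ^ 2 * x1 + C) := by ring
        rw [this, hx', h1', sub_zero]
      rcases mul_eq_zero.1 ((mul_eq_zero.1 e).resolve_left hs) with h | h
      · rw [sub_eq_zero.1 h]; simp
      · have : x = x1 + s := by
          rw [add_assoc] at h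
          exact CharTwo.add_eq_zero.1 h
        rw [this]; simp
    calc R.card ≤ ({x1, x1 + s} : Finset F).card := Finset.card_le_card this
      _ ≤ 2 := Finset.card_le_two

lemma exists_one_odd [CharP F 2] {Wf : Finset F} {m : ℕ} (hodd : Odd m) (h3 : 3 ≤ m)
    (h2 : 2 * m < Wf.card) :
    ∃ Y ⊆ Wf, Y.card = m ∧ ∀ a b : F, a ≠ 0 → Stab Y a b → a = 1 ∧ b = 0 := by
  have h20 : (2 : F) = 0 := CharTwo.two_eq_zero
  obtain ⟨W0, hW0, hc0, hs⟩ := exists_sum_ne (U := Wf) (m := m - 1) (by omega) (by omega)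
  set s := ∑ z ∈ W0, z with hsdef
  obtain ⟨ω, hω⟩ : ∃ ω : F, ∀ a : F, a ^ 2 + a + 1 = 0 → a = ω ∨ a = ω + 1 := by
    by_cases h : ∃ ω : F, ω ^ 2 + ω + 1 = 0
    · obtain ⟨ω, hω⟩ := h
      refine ⟨ω, fun a ha => ?_⟩
      have e : (a - ω) * (a + ω + 1) = 0 := by
        have : (a - ω) * (a + ω + 1) = (a ^ 2 + a + 1) - (ω ^ 2 + ω + 1) := by ring
        rw [this, ha, hω, sub_zero]
      rcases mul_eq_zero.1 e with h | h
      · left; exact sub_eq_zero.1 h
      · right
        rw [add_assoc] at h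
        exact CharTwo.add_eq_zero.1 h
    · push Not at h
      exact ⟨0, fun a ha => absurd ha (h a)⟩
  set C := P W0 3 + s ^ 3 with hC
  set R := univ.filter (fun x : F => s * x ^ 2 + s ^ 2 * x + C = 0) with hR
  set Ex : Finset F := W0 ∪ W0.image (fun z => z + ω * s) ∪ R with hEx
  have hExc : Ex.card < Wf.card := by
    have e1 : Ex.card ≤ (W0 ∪ W0.image (fun z => z + ω * s)).card + R.card := Finset.card_union_le (W0 ∪ W0.image (fun z => z + ω * s)) R
    have e2 := Finset.card_union_le W0 (W0.image (fun z => z + ω * s))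
    have e3 := Finset.card_image_le (s := W0) (f := fun z => z + ω * s)
    have e4 : R.card ≤ 2 := quad_card hs C
    omega
  obtain ⟨x, hx, hxE⟩ : ∃ b ∈ Wf, b ∉ Ex := by
    by_contra hcon
    push Not at hcon
    have := Finset.card_le_card (show Wf ⊆ Ex from hcon)
    omega
  simp only [hEx, mem_union, not_or, hR, mem_filter, mem_univ, true_and, mem_image, not_exists,
    not_and] at hxE
  obtain ⟨⟨hx1, hx2⟩, hx3⟩ := hxE
  refine ⟨insert x W0, ?_, ?_, ?_⟩
  · exact Finset.insert_subset hx hW0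
  · rw [Finset.card_insert_of_notMem hx1]; omega
  intro a b ha hst
  set Y := insert x W0 with hY
  have hYc : Y.card = m := by rw [hY, Finset.card_insert_of_notMem hx1]; omega
  have hm1 : (m : F) = 1 := by
    obtain ⟨k, hk⟩ := hodd
    rw [hk]
    push_cast
    rw [h20, zero_mul, zero_add]
  set c := x + s with hc
  have hP1 : ∑ y ∈ Y, y = c := by rw [hY, Finset.sum_insert hx1]
  have hb : a * c + b = c := by
    have := sum_stab ha hst (fun y => y)
    rw [Finset.sum_add_distrib, ← Finset.mul_sum, hP1, Finset.sum_const, hYc, nsmul_eq_mul, hm1,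
      one_mul] at this
    exact this
  have hb' : b = a * c + c := by
    have : a * c + (a * c + b) = a * c + c := by rw [hb]
    rwa [← add_assoc, CharTwo.add_self_eq_zero, zero_add] at this
  have hP2 : ∑ y ∈ Y, y ^ 2 = c ^ 2 := by
    have := P_two Y 1
    unfold P at this
    simp only [mul_one, pow_one] at this
    rw [this, hP1]
  have hQ : ∑ y ∈ Y, (y + c) ^ 3 = s * x ^ 2 + s ^ 2 * x + C := by
    have e : ∀ y ∈ Y, (y + c) ^ 3 = y ^ 3 + c * y ^ 2 + c ^ 2 * y + c ^ 3 := by
      intro y _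
      have : (y + c) ^ 3 = y ^ 3 + c * y ^ 2 + c ^ 2 * y + c ^ 3 + 2 * (c * y ^ 2 + c ^ 2 * y) := by
        ring
      rw [this, h20, zero_mul, add_zero]
    rw [Finset.sum_congr rfl e, Finset.sum_add_distrib, Finset.sum_add_distrib,
      Finset.sum_add_distrib, ← Finset.mul_sum, ← Finset.mul_sum, hP1, hP2, Finset.sum_const, hYc,
      nsmul_eq_mul, hm1, one_mul, hY, Finset.sum_insert hx1, hC, hc]
    have : ∑ x ∈ W0, x ^ 3 = P W0 3 := rfl
    rw [this]
    have e2 : x ^ 3 + P W0 3 + (x + s) * (x + s) ^ 2 + (x + s) ^ 2 * (x + s) + (x + s) ^ 3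
      = s * x ^ 2 + s ^ 2 * x + (P W0 3 + s ^ 3) + 2 * (2 * x ^ 3 + 4 * x ^ 2 * s + 4 * x * s ^ 2 + s ^ 3) := by
      ring
    rw [e2, h20, zero_mul, add_zero]
  have ha3 : a ^ 3 = 1 := by
    have := sum_stab ha hst (fun y => (y + c) ^ 3)
    have e : ∀ y ∈ Y, (a * y + b + c) ^ 3 = a ^ 3 * (y + c) ^ 3 := by
      intro y _
      rw [hb', ← mul_pow]
      congr 1
      have : a * y + (a * c + c) + c = a * (y + c) + (c + c) := by ring
      rw [this, CharTwo.add_self_eq_zero, add_zero]
    rw [Finset.sum_congr rfl e, ← Finset.mul_sum, hQ] at this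
    exact mul_right_cancel₀ hx3 (by rw [this, one_mul])
  by_cases ha1 : a = 1
  · refine ⟨ha1, ?_⟩
    rw [hb', ha1, one_mul, CharTwo.add_self_eq_zero]
  exfalso
  have ha2 : a ^ 2 + a + 1 = 0 := by
    have : (a - 1) * (a ^ 2 + a + 1) = 0 := by
      have : (a - 1) * (a ^ 2 + a + 1) = a ^ 3 - 1 := by ring
      rw [this, ha3, sub_self]
    exact (mul_eq_zero.1 this).resolve_left (sub_ne_zero.2 ha1)
  have hxY : x ∈ Y := Finset.mem_insert_self _ _
  -- x + (a+1) s ∈ Y
  have k1 : x + (a + 1) * s ∈ Y := by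
    have := hst x hxY
    rw [hb'] at this
    have e : a * x + (a * c + c) = x + (a + 1) * s + 2 * (a * x) := by rw [hc]; ring
    rwa [e, h20, zero_mul, add_zero] at this
  have k2 : x + a * s ∈ Y := by
    have := hst _ k1
    rw [hb'] at this
    have e : a * (x + (a + 1) * s) + (a * c + c) = x + a * s + (a ^ 2 + a + 1) * s + 2 * (a * x) := by
      rw [hc]; ring
    rwa [e, h20, zero_mul, add_zero, ha2, zero_mul, add_zero] at this
  rcases hω a ha2 with h | h
  · rw [h] at k2
    rcases Finset.mem_insert.1 k2 with h5 | h5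
    · have h6 : ω * s = 0 := by simpa using h5
      rcases mul_eq_zero.1 h6 with h7 | h7
      · exact ha (h.trans h7)
      · exact hs h7
    · refine hx2 _ h5 ?_
      rw [add_assoc, CharTwo.add_self_eq_zero, add_zero]
  · rw [h] at k1
    have e : x + (ω + 1 + 1) * s = x + ω * s := by
      have : x + (ω + 1 + 1) * s = x + ω * s + 2 * s := by ring
      rw [this, h20, zero_mul, add_zero]
    rw [e] at k1
    rcases Finset.mem_insert.1 k1 with h5 | h5
    · have h6 : ω * s = 0 := by simpa using h5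
      rcases mul_eq_zero.1 h6 with h7 | h7
      · rw [h7, zero_add] at h
        exact ha1 h
      · exact hs h7
    · refine hx2 _ h5 ?_
      rw [add_assoc, CharTwo.add_self_eq_zero, add_zero]

end Pool.Agent.X331.AGL
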