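import Mathlib
import Pool.Agent.X331.AGL.OneOdd

open Finset

namespace Pool.Agent.X331.AGL

lemma four_dvd {F : Type*} [Field F] [CharP F 2] [DecidableEq F] {Y : Finset F} {t u : F}
    (ht : t ≠ 0) (hu : u ≠ 0) (htu : t ≠ u) (h1 : Stab Y 1 t) (h2 : Stab Y 1 u) : 4 ∣ Y.card := by
  set g : F → F := fun x => x * (x + t) with hg
  have h20 : (2 : F) = 0 := CharTwo.two_eq_zero
  have hgu : g u ≠ 0 := mul_ne_zero hu (fun h => htu (CharTwo.add_eq_zero.1 h).symm)
  have hadd : ∀ x, g (x + u) = g x + g u := by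
    intro x
    simp only [hg]
    have : (x + u) * (x + u + t) = x * (x + t) + u * (u + t) + 2 * (x * u) := by ring
    rw [this, h20, zero_mul, add_zero]
  have hS : Stab (Y.image g) 1 (g u) := by
    intro z hz
    obtain ⟨x, hx, rfl⟩ := Finset.mem_image.1 hz
    rw [one_mul, ← hadd]
    have := h2 x hx
    rw [one_mul] at this
    exact Finset.mem_image_of_mem _ this
  have hev := even_card_of_trans hgu hS
  have hc : Y.card = ∑ z ∈ Y.image g, (Y.filter (fun x => g x = z)).card := by
    apply Finset.card_eq_sum_card_fiberwise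
    intro x hx
    exact Finset.mem_image_of_mem _ hx
  have hf : ∀ z ∈ Y.image g, (Y.filter (fun x => g x = z)).card = 2 := by
    intro z hz
    obtain ⟨x, hx, rfl⟩ := Finset.mem_image.1 hz
    have : Y.filter (fun y => g y = g x) = {x, x + t} := by
      ext y
      simp only [mem_filter, mem_insert, mem_singleton]
      constructor
      · rintro ⟨_, h⟩
        have e : (y - x) * (y + x + t) = 0 := by
          have : (y - x) * (y + x + t) = g y - g x := by simp only [hg]; ring
          rw [this, h, sub_self]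
        rcases mul_eq_zero.1 e with h | h
        · left; exact sub_eq_zero.1 h
        · right
          rw [add_assoc] at h
          exact CharTwo.add_eq_zero.1 h
      · rintro (h | h)
        · rw [h]; exact ⟨hx, rfl⟩
        · have h3 := h1 x hx
          rw [one_mul] at h3
          rw [h]
          refine ⟨h3, ?_⟩
          simp only [hg]
          have : (x + t) * (x + t + t) = x * (x + t) + 2 * (t * (x + t)) := by ring
          rw [this, h20, zero_mul, add_zero]
    rw [this, Finset.card_pair]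
    intro h
    exact ht (by simpa using h)
  rw [Finset.sum_congr rfl hf, Finset.sum_const, smul_eq_mul] at hc
  obtain ⟨k, hk⟩ := hev
  exact ⟨k, by omega⟩

theorem exists_exact {F : Type*} [Field F] [Fintype F] [CharP F 2] (d : ℕ)
    (hd : d ∣ Fintype.card F - 1) (W : AddSubgroup F)
    (hW : ∀ ζ : F, ζ ^ d = 1 → ∀ w ∈ W, ζ * w ∈ W) (m : ℕ) (h3 : 3 ≤ m)
    (h2 : 2 * m ≤ Nat.card W) (hm : d ∣ m ∨ d ∣ m - 1) (hp : ¬ ∃ j, m = 2 ^ j) :
    ∃ Y : Finset F, (∀ y ∈ Y, y ∈ W) ∧ Y.card = m ∧
      ∀ a b : F, a ≠ 0 → ((∀ y ∈ Y, a * y + b ∈ Y) ↔ (a ^ d = 1 ∧ b = 0)) := by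
  classical
  obtain ⟨n, -, hn⟩ := FiniteField.card F 2
  have hcard2 : 2 ≤ Fintype.card F := Fintype.one_lt_card
  have hd0 : 0 < d := Nat.pos_of_dvd_of_pos hd (by omega)
  have hdodd : Odd d := by
    have h1 : Odd (Fintype.card F - 1) := by
      rw [hn]
      have : Even (2 ^ (n : ℕ)) := by
        rw [Nat.even_pow]
        exact ⟨even_two, n.pos.ne'⟩
      obtain ⟨k, hk⟩ := this
      exact ⟨k - 1, by rw [hn] at hcard2; omega⟩
    exact Odd.of_dvd_nat h1 hd
  -- primitive root
  obtain ⟨ζ, hζ⟩ : ∃ ζ : F, IsPrimitiveRoot ζ d := by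
    obtain ⟨g, hg⟩ := IsCyclic.exists_ofOrder_eq_natCard (α := Fˣ)
    obtain ⟨k, hk⟩ := hd
    have hgo : orderOf g = d * k := by
      rw [hg, Nat.card_eq_fintype_card, Fintype.card_units, hk]
    have hk0 : 0 < k := by
      rcases Nat.eq_zero_or_pos k with h | h
      · rw [h, mul_zero] at hk; omega
      · exact h
    have h1 : IsPrimitiveRoot g (d * k) := by rw [← hgo]; exact IsPrimitiveRoot.orderOf g
    have h2 : IsPrimitiveRoot (g ^ k) d := h1.pow (Nat.mul_pos hd0 hk0) (mul_comm d k)
    refine ⟨((g ^ k : Fˣ) : F), ?_⟩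
    exact h2.map_of_injective (f := Units.coeHom F) Units.val_injective
  -- the finset of W
  set Wf : Finset F := univ.filter (fun x => x ∈ W) with hWf
  have hWfm : ∀ x, x ∈ Wf ↔ x ∈ W := fun x => by simp [hWf]
  have hWfc : Wf.card = Nat.card W := by
    rw [Nat.card_eq_fintype_card, Fintype.card_subtype]
  obtain ⟨r, hr⟩ : ∃ r, Wf.card = 2 ^ r := by
    have h1 : Nat.card W ∣ Nat.card F := AddSubgroup.card_addSubgroup_dvd_card W
    rw [Nat.card_eq_fintype_card (α := F), hn, Nat.dvd_prime_pow Nat.prime_two] at h1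
    obtain ⟨r, -, hr⟩ := h1
    exact ⟨r, by rw [hWfc, hr]⟩
  rw [← hWfc] at h2
  set U : Finset F := (Wf.erase 0).image (fun x => x ^ d) with hU
  have hUw : ∀ u ∈ U, ∃ w : F, w ≠ 0 ∧ w ^ d = u := by
    intro u hu
    obtain ⟨w, hw, hwu⟩ := Finset.mem_image.1 hu
    exact ⟨w, (Finset.mem_erase.1 hw).1, hwu⟩
  have hU0 : (0 : F) ∉ U := by
    intro h
    obtain ⟨w, hw, hw0⟩ := hUw _ h
    exact hw (pow_eq_zero_iff (by omega) |>.1 hw0)
  have hYU : YZ d U = Wf.erase 0 := by
    ext x
    rw [mem_YZ]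
    constructor
    · intro h
      obtain ⟨w, hw, hwu⟩ := Finset.mem_image.1 h
      obtain ⟨hw0, hwW⟩ := Finset.mem_erase.1 hw
      have h1 : (x / w) ^ d = 1 := by
        rw [div_pow, hwu, div_self]
        rw [← hwu]
        exact pow_ne_zero _ hw0
      have h4 := hW (x / w) h1 w ((hWfm w).1 hwW)
      rw [div_mul_cancel₀ _ hw0] at h4
      refine Finset.mem_erase.2 ⟨?_, (hWfm x).2 h4⟩
      intro hx
      rw [hx, zero_div, zero_pow (by omega)] at h1
      exact zero_ne_one h1
    · intro h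
      exact Finset.mem_image_of_mem _ h
  have hN : d * U.card = Wf.card - 1 := by
    rw [← card_YZ hd0 hζ hUw, hYU, Finset.card_erase_of_mem ((hWfm 0).2 W.zero_mem)]
  have hr1 : 1 ≤ r := by
    rcases Nat.eq_zero_or_pos r with h | h
    · rw [h, pow_zero] at hr; omega
    · exact h
  have hWeven : 2 ∣ Wf.card := by
    rw [hr]
    exact dvd_pow_self 2 (by omega)
  have hUodd : Odd U.card := by
    have h1 : Odd (d * U.card) := by
      rw [hN]
      obtain ⟨k, hk⟩ := hWeven
      exact ⟨k - 1, by omega⟩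
    exact (Nat.odd_mul.1 h1).2
  have hYZW : ∀ Z ⊆ U, ∀ y ∈ YZ d Z, y ∈ W := by
    intro Z hZ y hy
    have h1 : y ∈ YZ d U := mem_YZ.2 (hZ (mem_YZ.1 hy))
    rw [hYU] at h1
    exact (hWfm y).1 (Finset.mem_erase.1 h1).2
  have hYZc : ∀ Z ⊆ U, (YZ d Z).card = d * Z.card := fun Z hZ =>
    card_YZ hd0 hζ (fun z hz => hUw z (hZ hz))
  have hd1 : (d : F) = 1 := by
    obtain ⟨k, hk⟩ := hdodd
    rw [hk]
    push_cast
    have h20 : (2 : F) = 0 := CharTwo.two_eq_zero
    rw [h20, zero_mul, zero_add]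
  have hYZP : ∀ Z ⊆ U, P (YZ d Z) d = ∑ z ∈ Z, z := fun Z hZ => by
    rw [sum_YZ hd0 hζ (fun z hz => hUw z (hZ hz)), hd1, one_mul]
  have h0YZ : ∀ Z ⊆ U, (0 : F) ∉ YZ d Z := by
    intro Z hZ h
    have h1 := hZ (mem_YZ.1 h)
    rw [zero_pow (by omega)] at h1
    exact hU0 h1
  have hInsC : ∀ Z ⊆ U, (insert 0 (YZ d Z)).card = d * Z.card + 1 := fun Z hZ => by
    rw [Finset.card_insert_of_notMem (h0YZ Z hZ), hYZc Z hZ]
  have hInsP : ∀ Z ⊆ U, P (insert 0 (YZ d Z)) d = ∑ z ∈ Z, z := fun Z hZ => by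
    unfold P
    rw [Finset.sum_insert (h0YZ Z hZ), zero_pow (by omega), zero_add]
    exact hYZP Z hZ
  have hInsS : ∀ Z : Finset F, ∀ a : F, a ^ d = 1 → Stab (insert 0 (YZ d Z)) a 0 := by
    intro Z a ha y hy
    rcases Finset.mem_insert.1 hy with h | h
    · rw [h, mul_zero, add_zero]; exact Finset.mem_insert_self _ _
    · exact Finset.mem_insert_of_mem (stab_YZ ha Z y h)
  have hζd : ζ ^ d = 1 := hζ.pow_eq_one
  -- two finishing devices
  have fin1 : ∀ Z ⊆ U, d * Z.card = m → (∀ a b : F, a ≠ 0 → Stab (YZ d Z) a b → a ^ d = 1 ∧ b = 0) →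
      ∃ Y : Finset F, (∀ y ∈ Y, y ∈ W) ∧ Y.card = m ∧
      ∀ a b : F, a ≠ 0 → ((∀ y ∈ Y, a * y + b ∈ Y) ↔ (a ^ d = 1 ∧ b = 0)) := by
    intro Z hZ hc hs
    refine ⟨YZ d Z, hYZW Z hZ, by rw [hYZc Z hZ, hc], fun a b ha => ⟨fun h => hs a b ha h, ?_⟩⟩
    rintro ⟨h1, rfl⟩
    exact stab_YZ h1 Z
  have fin2 : ∀ Z ⊆ U, d * Z.card + 1 = m →
      (∀ a b : F, a ≠ 0 → Stab (insert 0 (YZ d Z)) a b → a ^ d = 1 ∧ b = 0) →
      ∃ Y : Finset F, (∀ y ∈ Y, y ∈ W) ∧ Y.card = m ∧
      ∀ a b : F, a ≠ 0 → ((∀ y ∈ Y, a * y + b ∈ Y) ↔ (a ^ d = 1 ∧ b = 0)) := by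
    intro Z hZ hc hs
    refine ⟨insert 0 (YZ d Z), ?_, by rw [hInsC Z hZ, hc], fun a b ha => ⟨fun h => hs a b ha h, ?_⟩⟩
    · intro y hy
      rcases Finset.mem_insert.1 hy with h | h
      · rw [h]; exact W.zero_mem
      · exact hYZW Z hZ y h
    rintro ⟨h1, rfl⟩
    exact hInsS Z a h1
  rcases Nat.eq_or_lt_of_le (Nat.succ_le_of_lt hd0) with hd1' | hd1'
  · -- d = 1
    have hdd : d = 1 := hd1'.symm
    rcases Nat.even_or_odd m with hme | hmo
    · -- m even
      obtain ⟨Z, hZU, hZc, hZs, hZn⟩ := exists_C1 (U := U) (m := m - 1) (by omega) (by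
        rw [hdd, one_mul] at hN; omega)
      refine fin2 Z hZU (by rw [hZc, hdd]; omega) ?_
      intro a b ha hst
      have hYe : Even (insert 0 (YZ d Z)).card := by
        rw [hInsC Z hZU, hdd, one_mul, hZc]
        have : m - 1 + 1 = m := by omega
        rw [this]; exact hme
      have ha1 : a = 1 := by
        have h5 := sum_stab ha hst (fun y => y)
        rw [Finset.sum_add_distrib, ← Finset.mul_sum, Finset.sum_const] at h5
        have h6 : ((insert 0 (YZ d Z)).card : F) = 0 := by
          obtain ⟨k, hk⟩ := hYe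
          rw [hk]
          push_cast
          exact CharTwo.add_self_eq_zero _
        rw [nsmul_eq_mul, h6, zero_mul, add_zero] at h5
        have h7 : ∑ y ∈ insert 0 (YZ d Z), y = ∑ z ∈ Z, z := by
          have := hInsP Z hZU
          rw [← this]
          unfold P
          rw [hdd]
          simp
        rw [h7] at h5
        exact mul_right_cancel₀ hZs (by rw [h5, one_mul])
      subst ha1
      refine ⟨one_pow _, ?_⟩
      by_contra hb0
      have hPd : P (insert 0 (YZ d Z)) d ≠ 0 := by rw [hInsP Z hZU]; exact hZs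
      have h8 := trans_M hζ hd0 (hInsS Z ζ hζd) hYe hst (e := 1) (by rw [hdd]; norm_num) hPd hb0
      have h9 := hst 0 (Finset.mem_insert_self _ _)
      rw [mul_zero, zero_add] at h9
      have h10 := (Finset.mem_insert.1 h9).resolve_left hb0
      rw [mem_YZ, h8, hInsP Z hZU] at h10
      exact hZn h10
    · -- m odd
      have h2' : 2 * m < Wf.card := by
        rcases Nat.lt_or_eq_of_le h2 with h | h
        · exact h
        · exfalso
          apply hp
          refine ⟨r - 1, ?_⟩
          rw [hr] at h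
          obtain ⟨r', rfl⟩ : ∃ r', r = r' + 1 := ⟨r - 1, by omega⟩
          rw [pow_succ] at h
          simp only [Nat.add_sub_cancel]
          omega
      obtain ⟨Y, hYW, hYc, hYs⟩ := exists_one_odd hmo h3 h2'
      refine ⟨Y, fun y hy => (hWfm y).1 (hYW hy), hYc, fun a b ha => ⟨fun h => ?_, ?_⟩⟩
      · obtain ⟨h1, h4⟩ := hYs a b ha h
        exact ⟨by rw [h1, one_pow], h4⟩
      · rintro ⟨h1, rfl⟩
        rw [hdd, pow_one] at h1
        rw [h1]
        intro y hy
        rwa [one_mul, add_zero]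
  · -- d > 1
    have hd3 : 3 ≤ d := by
      obtain ⟨k, hk⟩ := hdodd
      omega
    have hd1'' : 1 < d := by omega
    -- if no translations
    have fin3 : ∀ Z ⊆ U, d * Z.card = m → ∑ z ∈ Z, z ≠ 0 → (∀ t, Stab (YZ d Z) 1 t → t = 0) →
        ∃ Y : Finset F, (∀ y ∈ Y, y ∈ W) ∧ Y.card = m ∧
        ∀ a b : F, a ≠ 0 → ((∀ y ∈ Y, a * y + b ∈ Y) ↔ (a ^ d = 1 ∧ b = 0)) := by
      intro Z hZ hc hs hT
      refine fin1 Z hZ hc fun a b ha hst => ?_
      exact stab_eq hζ hd1'' (stab_YZ hζd Z) (by rw [hYZP Z hZ]; exact hs) hT a b ha hst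
    have fin4 : ∀ Z ⊆ U, d * Z.card + 1 = m → ∑ z ∈ Z, z ≠ 0 →
        (∀ t, Stab (insert 0 (YZ d Z)) 1 t → t = 0) →
        ∃ Y : Finset F, (∀ y ∈ Y, y ∈ W) ∧ Y.card = m ∧
        ∀ a b : F, a ≠ 0 → ((∀ y ∈ Y, a * y + b ∈ Y) ↔ (a ^ d = 1 ∧ b = 0)) := by
      intro Z hZ hc hs hT
      refine fin2 Z hZ hc fun a b ha hst => ?_
      exact stab_eq hζ hd1'' (hInsS Z ζ hζd) (by rw [hInsP Z hZ]; exact hs) hT a b ha hst
    have hex : ∀ m0, 1 ≤ m0 → d * m0 ≤ m → ∃ Z ⊆ U, Z.card = m0 ∧ ∑ z ∈ Z, z ≠ 0 := by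
      intro m0 h1 h4
      apply exists_sum_ne h1
      by_contra h5
      push Not at h5
      have : d * U.card ≤ d * m0 := Nat.mul_le_mul_left d h5
      omega
    -- non-Mersenne or Mersenne
    have hM : (∃ e, d + 1 = 2 ^ e) ∨ ∃ n e, 1 ≤ e ∧ n + 1 = 2 ^ e ∧ d < n ∧ n ≤ 2 * d := by
      by_cases h : ∃ e, d + 1 = 2 ^ e
      · left; exact h
      · right
        push Not at h
        refine ⟨2 ^ (Nat.log 2 (d + 1) + 1) - 1, Nat.log 2 (d + 1) + 1, by omega, ?_, ?_, ?_⟩
        · have : 1 ≤ 2 ^ (Nat.log 2 (d + 1) + 1) := Nat.one_le_two_pow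
          omega
        · have : d + 1 < 2 ^ (Nat.log 2 (d + 1) + 1) := Nat.lt_pow_succ_log_self (by norm_num) _
          omega
        · have h4 : 2 ^ (Nat.log 2 (d + 1)) ≤ d + 1 := Nat.pow_log_le_self 2 (by omega)
          have h5 := h (Nat.log 2 (d + 1))
          rw [pow_succ]
          omega
    rcases hm with hm | hm
    · -- m = d m0
      obtain ⟨m0, rfl⟩ := hm
      have hm0 : 1 ≤ m0 := by
        rcases Nat.eq_zero_or_pos m0 with h | h
        · rw [h, mul_zero] at h3; omega
        · exact h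
      rcases Nat.even_or_odd (d * m0) with hme | hmo
      · -- even
        have hm0e : Even m0 := by
          rcases Nat.even_mul.1 hme with h | h
          · exact absurd hdodd (Nat.not_odd_iff_even.2 h)
          · exact h
        rcases hM with ⟨e, he⟩ | ⟨n', e, he1, hn', hdn, hnd⟩
        · -- Mersenne
          by_cases h4 : 4 ∣ m0
          · obtain ⟨Z, hZU, hZc, hZs, hZn⟩ := exists_C2 hU0 hUodd hm0e
              (Nat.le_of_dvd (by omega) h4) (by
                by_contra h5
                push Not at h5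
                have h6 : U.card + 1 ≤ 2 * m0 := h5
                have h7 : d * (U.card + 1) ≤ d * (2 * m0) := Nat.mul_le_mul_left d h6
                have h8 : d * (U.card + 1) = d * U.card + d := by ring
                have h9 : d * (2 * m0) = 2 * (d * m0) := by ring
                omega)
            refine fin3 Z hZU (by rw [hZc]) hZs ?_
            intro t ht
            by_contra ht0
            have hYe : Even (YZ d Z).card := by rw [hYZc Z hZU, hZc]; exact hme
            have h8 := trans_M hζ hd0 (stab_YZ hζd Z) hYe ht he (by rw [hYZP Z hZU]; exact hZs) ht0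
            rw [hYZP Z hZU] at h8
            -- t ∈ W
            obtain ⟨z, hz⟩ : Z.Nonempty := by rw [← Finset.card_pos]; omega
            obtain ⟨w, hw, hwz⟩ := hUw z (hZU hz)
            have hwY : w ∈ YZ d Z := mem_YZ.2 (by rw [hwz]; exact hz)
            have h10 := ht w hwY
            rw [one_mul] at h10
            have htW : t ∈ W := by
              have := W.sub_mem (hYZW Z hZU _ h10) (hYZW Z hZU _ hwY)
              rwa [add_sub_cancel_left] at this
            have htU : t ^ d ∈ U := Finset.mem_image_of_mem _ (Finset.mem_erase.2 ⟨ht0, (hWfm t).2 htW⟩)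
            rw [h8] at htU
            have h11 := hZn htU
            have htY : t ∈ YZ d Z := mem_YZ.2 (by rw [h8]; exact h11)
            have h12 := ht t htY
            rw [one_mul, CharTwo.add_self_eq_zero] at h12
            exact h0YZ Z hZU h12
          · obtain ⟨Z, hZU, hZc, hZs⟩ := hex m0 hm0 le_rfl
            refine fin3 Z hZU (by rw [hZc]) hZs ?_
            intro t ht
            by_contra ht0
            -- Klein four group
            exfalso
            have hζ0 : ζ ≠ 0 := hζ.ne_zero (by omega)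
            have hζ1 : ζ ≠ 1 := hζ.ne_one hd1''
            have ht2 : Stab (YZ d Z) 1 (ζ * t) := by
              have := ((stab_YZ hζd Z).comp ht).comp ((stab_YZ hζd Z).inv hζ0)
              convert this using 1
              · field_simp
              · ring
            have h4' := four_dvd ht0 (mul_ne_zero hζ0 ht0) (by
              intro h
              exact hζ1 (mul_right_cancel₀ ht0 (by rw [one_mul]; exact h.symm))) ht ht2
            rw [hYZc Z hZU, hZc] at h4'
            have : Nat.Coprime 4 d := by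
              have : Nat.Coprime (2 ^ 2) d := Nat.Coprime.pow_left 2 (Nat.coprime_two_left.2 hdodd)
              simpa using this
            exact h4 (this.dvd_of_dvd_mul_left h4')
        · -- non-Mersenne
          obtain ⟨Z, hZU, hZc, hZs⟩ := hex m0 hm0 le_rfl
          refine fin3 Z hZU (by rw [hZc]) hZs ?_
          intro t ht
          exact trans_nonM hζ hd0 (stab_YZ hζd Z) (by rw [hYZc Z hZU, hZc]; exact hme) ht he1 hn'
            hdn hnd (by rw [hYZP Z hZU]; exact hZs)
      · -- odd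
        obtain ⟨Z, hZU, hZc, hZs⟩ := hex m0 hm0 le_rfl
        refine fin3 Z hZU (by rw [hZc]) hZs ?_
        intro t ht
        by_contra ht0
        have := even_card_of_trans ht0 ht
        rw [hYZc Z hZU, hZc] at this
        exact (Nat.not_even_iff_odd.2 hmo) this
    · -- m = d m0 + 1
      obtain ⟨m0, hm0'⟩ := hm
      have hmm : m = d * m0 + 1 := by omega
      have hm0 : 1 ≤ m0 := by
        rcases Nat.eq_zero_or_pos m0 with h | h
        · rw [h, mul_zero] at hm0'; omega
        · exact h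
      rcases Nat.even_or_odd m with hme | hmo
      · rcases hM with ⟨e, he⟩ | ⟨n', e, he1, hn', hdn, hnd⟩
        · -- Mersenne, C1
          have hm01 : m0 ≠ 1 := by
            intro h
            apply hp
            exact ⟨e, by rw [hmm, h, mul_one, he]⟩
          have hUc : 2 * m0 ≤ U.card := by
            by_contra h5
            push Not at h5
            have h6 : U.card + 1 ≤ 2 * m0 := h5
            have h7 : d * (U.card + 1) ≤ d * (2 * m0) := Nat.mul_le_mul_left d h6
            have h8 : d * (U.card + 1) = d * U.card + d := by ring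
            have h9 : d * (2 * m0) = 2 * (d * m0) := by ring
            omega
          obtain ⟨Z, hZU, hZc, hZs, hZn⟩ := exists_C1 (U := U) (m := m0) (by omega) hUc
          refine fin4 Z hZU (by rw [hZc]; exact hmm.symm) hZs ?_
          intro b hst
          by_contra hb0
          have hYe : Even (insert 0 (YZ d Z)).card := by
            rw [hInsC Z hZU, hZc, ← hmm]; exact hme
          have h8 := trans_M hζ hd0 (hInsS Z ζ hζd) hYe hst he (by rw [hInsP Z hZU]; exact hZs) hb0
          have h9 := hst 0 (Finset.mem_insert_self _ _)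
          rw [mul_zero, zero_add] at h9
          have h10 := (Finset.mem_insert.1 h9).resolve_left hb0
          rw [mem_YZ, h8, hInsP Z hZU] at h10
          exact hZn h10
        · obtain ⟨Z, hZU, hZc, hZs⟩ := hex m0 hm0 (by omega)
          refine fin4 Z hZU (by rw [hZc]; exact hmm.symm) hZs ?_
          intro t ht
          exact trans_nonM hζ hd0 (hInsS Z ζ hζd) (by rw [hInsC Z hZU, hZc, ← hmm]; exact hme) ht he1 hn'
            hdn hnd (by rw [hInsP Z hZU]; exact hZs)
      · obtain ⟨Z, hZU, hZc, hZs⟩ := hex m0 hm0 (by omega)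
        refine fin4 Z hZU (by rw [hZc]; exact hmm.symm) hZs ?_
        intro t ht
        by_contra ht0
        have := even_card_of_trans ht0 ht
        rw [hInsC Z hZU, hZc, ← hmm] at this
        exact (Nat.not_even_iff_odd.2 hmo) this

end Pool.Agent.X331.AGL
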